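import Pool.Agent.N520.AN.Stm3
import Pool.Agent.N572.AN.Fam
import Pool.Agent.N588.AN.Cpt

/-!
Project AN (helper520), third part, FORM: antipodal groups of isometries of a form are antipodal
(helper543).
-/

set_option autoImplicit false

open Set Filter Topology

namespace Pool.Agent.N520.AN

namespace Form543

variable {E : Type} [NormedAddCommGroup E] [NormedSpace ℝ E] [FiniteDimensional ℝ E]

/-- a bounded sequence against a null sequence -/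
theorem tendsto_zero (B : E →ₗ[ℝ] E →ₗ[ℝ] ℝ) {x b : ℕ → E} {C : ℝ} (hx : ∀ j, ‖x j‖ ≤ C)
    (hb : Tendsto b atTop (𝓝 0)) : Tendsto (fun j => B (x j) (b j)) atTop (𝓝 0) := by
  let T : E →ₗ[ℝ] (E →L[ℝ] ℝ) :=
    (LinearMap.toContinuousLinearMap : (E →ₗ[ℝ] ℝ) ≃ₗ[ℝ] (E →L[ℝ] ℝ)).toLinearMap ∘ₗ B
  let T' : E →L[ℝ] (E →L[ℝ] ℝ) := LinearMap.toContinuousLinearMap T
  have hC : 0 ≤ C := (norm_nonneg _).trans (hx 0)
  have h1 : ∀ j, ‖B (x j) (b j)‖ ≤ ‖T'‖ * C * ‖b j‖ := by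
    intro j
    have h2 : B (x j) (b j) = T' (x j) (b j) := rfl
    rw [h2]
    calc ‖T' (x j) (b j)‖ ≤ ‖T' (x j)‖ * ‖b j‖ := (T' (x j)).le_opNorm (b j)
      _ ≤ (‖T'‖ * ‖x j‖) * ‖b j‖ := by gcongr; exact T'.le_opNorm (x j)
      _ ≤ ‖T'‖ * C * ‖b j‖ := by gcongr; exact hx j
  have h3 : Tendsto (fun j => ‖T'‖ * C * ‖b j‖) atTop (𝓝 0) := by
    have := (hb.norm).const_mul (‖T'‖ * C)
    simpa using this
  exact squeeze_zero_norm h1 h3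

theorem big_le {B : E →ₗ[ℝ] E →ₗ[ℝ] ℝ} {q : ℕ} {Λ : Subgroup (E ≃ₗ[ℝ] E)} (hA : Antip B q Λ)
    {g : ℕ → E ≃ₗ[ℝ] E} (hg : ∀ j, g j ∈ Λ) : big g ≤ cpt_orth B (att g) := by
  rintro v ⟨x, C, hx, hv⟩
  rw [cpt_mem_orth]
  rintro w ⟨b, hb, hw⟩
  have h1 := Pool.Agent.N572.AN.tendsto_bil B hv hw
  have h2 : (fun j => B (g j (x j)) (g j (b j))) = fun j => B (x j) (b j) := by
    funext j
    exact hA.pres _ (hg j) _ _
  rw [h2] at h1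
  exact tendsto_nhds_unique h1 (tendsto_zero B hx hb)

theorem dims {B : E →ₗ[ℝ] E →ₗ[ℝ] ℝ} {q : ℕ} {Λ : Subgroup (E ≃ₗ[ℝ] E)} (hA : Antip B q Λ)
    {g : ℕ → E ≃ₗ[ℝ] E} (hg : ∀ j, g j ∈ Λ) :
    Module.finrank ℝ (big g) + Module.finrank ℝ (att g) ≤ Module.finrank ℝ E := by
  have h1 := Submodule.finrank_mono (big_le hA hg)
  rw [cpt_finrank_orth B hA.nondeg] at h1
  have h2 := Submodule.finrank_le (att g)
  omega

theorem big_eq {B : E →ₗ[ℝ] E →ₗ[ℝ] ℝ} {q : ℕ} {Λ : Subgroup (E ≃ₗ[ℝ] E)} (hA : Antip B q Λ)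
    {g : ℕ → E ≃ₗ[ℝ] E} (hg : ∀ j, g j ∈ Λ) (hf : Fl q g) : big g = cpt_orth B (att g) := by
  refine Submodule.eq_of_le_of_finrank_eq (big_le hA hg) ?_
  rw [cpt_finrank_orth B hA.nondeg, hf.1]
  have := hf.2
  omega

end Form543

open Form543 in
theorem t_form (h : S2_GR) : S3_FORM := by
  intro E _ _ _ B q Λ hA
  refine ⟨hA.pos, fun g hg hd => ?_, fun g f hg hf hgq hfq => ?_⟩
  · obtain ⟨φ₁, hφ₁, hq₁⟩ := hA.div g hg hd
    obtain ⟨φ₂, hφ₂, hdim⟩ := h E (g ∘ φ₁)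
    have hm : ∀ j, ((g ∘ φ₁) ∘ φ₂) j ∈ Λ := fun j => hg _
    have h1 : Module.finrank ℝ (att (inv (g ∘ φ₁) ∘ φ₂)) ≤ q :=
      hA.le _ fun j => inv_mem' (g := g ∘ φ₁) (fun j => hg _) _
    have h2 : Module.finrank ℝ (att ((g ∘ φ₁) ∘ φ₂)) ≤ q := hA.le _ hm
    have h3 := Submodule.finrank_mono (att_sub (g ∘ φ₁) hφ₂)
    have h4 := dims hA hm
    refine ⟨φ₁ ∘ φ₂, hφ₁.comp hφ₂, ?_, ?_⟩
    · show Module.finrank ℝ (att ((g ∘ φ₁) ∘ φ₂)) = q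
      omega
    · show Module.finrank ℝ (big ((g ∘ φ₁) ∘ φ₂)) + q = Module.finrank ℝ E
      omega
  · rw [big_eq hA hg hgq, big_eq hA hf hfq]
    rcases hA.anti g f hg hf hgq.1 hfq.1 with heq | hne
    · left
      rw [heq]
    · right
      rw [eq_bot_iff]
      rintro v ⟨hv1, hv2⟩
      rw [Submodule.mem_bot]
      exact hne v hv1 ((cpt_mem_orth B _ _).1 hv2)

end Pool.Agent.N520.AN
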